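import Pool.Agent.H31.CG.Fin

/-!
# One board decides the strong clique game

A play is a sequence `p` of edges; the first player makes the moves `p 0, p 2, ..` and the second one the
moves `p 1, p 3, ..`.  The statement only uses the definitions of this file.
-/

set_option autoImplicit false

namespace Pool.Agent.Results.MP_99d323_co.OneBoard

/-- Some `q` vertices have all their pairs in `E`. -/
def HasK {V : Type} (q : ℕ) (E : Set (Sym2 V)) : Prop :=
  ∃ s : Finset V, s.card = q ∧ ∀ x ∈ s, ∀ y ∈ s, x ≠ y → s(x, y) ∈ E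

/-- The edges of the first player after his move number `i` (his moves are numbered from `0`). -/
def Red {V : Type} (p : ℕ → Sym2 V) (i : ℕ) : Set (Sym2 V) := {e | ∃ j, j ≤ i ∧ p (2 * j) = e}

/-- The edges of the second player at that moment. -/
def Blue {V : Type} (p : ℕ → Sym2 V) (i : ℕ) : Set (Sym2 V) := {e | ∃ j, j < i ∧ p (2 * j + 1) = e}

/-- The first player follows the strategy `σ`. -/
def Follows {V : Type} (σ : List (Sym2 V) → Sym2 V) (p : ℕ → Sym2 V) : Prop :=
  ∀ i, p (2 * i) = σ ((List.range (2 * i)).map p)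

/-- The second player follows the strategy `τ`. -/
def Follows2 {V : Type} (τ : List (Sym2 V) → Sym2 V) (p : ℕ → Sym2 V) : Prop :=
  ∀ i, p (2 * i + 1) = τ ((List.range (2 * i + 1)).map p)

/-- The first player's moves number `0`, .., `k` are legal. -/
def Legal {V : Type} (p : ℕ → Sym2 V) (k : ℕ) : Prop :=
  ∀ j, j ≤ k → ¬ (p (2 * j)).IsDiag ∧ ∀ m, m < 2 * j → p m ≠ p (2 * j)

/-- As long as nobody has won, the second player's moves are legal. -/
def Legal2 {V : Type} (q : ℕ) (p : ℕ → Sym2 V) : Prop :=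
  ∀ i, ¬ HasK q (Red p i) → ¬ HasK q (Blue p i) →
    ¬ (p (2 * i + 1)).IsDiag ∧ ∀ m, m ≤ 2 * i → p m ≠ p (2 * i + 1)

/-- The first player has a strategy which always wins, at a move number `k` such that `P p k`. -/
def Wins (V : Type) (q : ℕ) (P : (ℕ → Sym2 V) → ℕ → Prop) : Prop :=
  ∃ σ : List (Sym2 V) → Sym2 V, ∀ p : ℕ → Sym2 V, Follows σ p → Legal2 q p →
    ∃ k, P p k ∧ HasK q (Red p k) ∧ ¬ HasK q (Blue p k) ∧ Legal p k

/-- The first player wins in at most `C` moves on the complete graph with vertex set `V`. -/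
def WinsIn (V : Type) (q C : ℕ) : Prop := Wins V q (fun _ k => k < C)

/-- The first player wins, always at a moment when two vertices were untouched until his opponent's last
move. -/
def Reserve (V : Type) (q : ℕ) : Prop :=
  Wins V q (fun p k => ∃ u v : V, u ≠ v ∧ ∀ m, m + 2 ≤ 2 * k → u ∉ p m ∧ v ∉ p m)

/-- The second player has a strategy such that the first player, making legal moves, never completes a
`K_q` before him. -/
def Draws (V : Type) (q : ℕ) : Prop :=
  ∃ τ : List (Sym2 V) → Sym2 V, ∀ p : ℕ → Sym2 V, Follows2 τ p → Legal2 q p ∧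
    ∀ k, Legal p k → ¬ HasK q (Blue p k) → ¬ HasK q (Red p k)

/-- `n ≥ R(q)`. -/
def Ramsey (n q : ℕ) : Prop :=
  ∀ c : Sym2 (Fin n) → Bool, ∃ s : Finset (Fin n), s.card = q ∧ ∃ b : Bool,
    ∀ x ∈ s, ∀ y ∈ s, x ≠ y → c s(x, y) = b

/-- The question for `q`: a bound for the number of moves which holds for all boards. -/
def Uniform (q : ℕ) : Prop := ∃ C : ℕ, ∀ n, Ramsey n q → WinsIn (Fin n) q C

/-- **One board decides.** Let `q ≥ 2`.  For `n ≥ R(q)` and `4 C ≤ n + 2` the first player wins in at
most `C` moves on `K_n` if and only if he does on the infinite complete graph.  A uniform bound for `q`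
exists if and only if he wins in at most `(n + 2) / 4` moves on one board `K_n`, `n ≥ R(q)`; if and only
if he wins on one such board with two vertices in reserve; if and only if he has a winning strategy
(without any bound) on the infinite complete graph; if and only if the second player has no drawing
strategy there. -/
theorem result (q : ℕ) (hq : 2 ≤ q) :
    (∀ C n : ℕ, Ramsey n q → 4 * C ≤ n + 2 → (WinsIn (Fin n) q C ↔ WinsIn ℕ q C)) ∧
    (Uniform q ↔ ∃ C n : ℕ, Ramsey n q ∧ 4 * C ≤ n + 2 ∧ WinsIn (Fin n) q C) ∧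
    (Uniform q ↔ ∃ n : ℕ, Ramsey n q ∧ Reserve (Fin n) q) ∧
    (Uniform q ↔ Wins ℕ q (fun _ _ => True)) ∧
    (Uniform q ↔ ¬ Draws ℕ q) := by
  obtain ⟨h1, -, h3, h4, h5, h6⟩ := Pool.CG.main q hq
  exact ⟨h1, h3, h4, h5, h6⟩

end Pool.Agent.Results.MP_99d323_co.OneBoard
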